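import Mathlib
import Pool.Agent.KS6_52.WK.Final

/-! # Gradient convergence on Aubry sets: the complete answer in dimension one

For a Tonelli Hamiltonian on `𝕋¹ × ℝ` whose projected Aubry set is the whole circle, the limit
relation of Q1 holds if and only if the solution `u` is of class `C²`, if and only if the second
derivative of `x ↦ min_p H(x, p)` vanishes at every point where this minimum equals `α(0)`. So the
relation fails (after a shift by a cohomology class) for every Tonelli Hamiltonian for which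
`x ↦ min_p H(x, p)` has a nondegenerate maximum, for instance for the pendulum. -/

namespace Pool.Agent.Results.MP_e5a79a_an.DimensionOneCriterion

open Pool.Agent.KS6_52.WK

theorem result :
    -- the criterion
    (∀ (H : ℝ → ℝ → ℝ) (k : ℝ) (u : ℝ → ℝ), Tonelli H → IsViscSol H k u → aubry H k = Set.univ →
      (LimitRelation H u ↔ ContDiff ℝ 2 u) ∧
      (LimitRelation H u ↔ ∀ x, fibreMin H x = k → deriv (deriv (fibreMin H)) x = 0)) ∧
    -- every Tonelli Hamiltonian whose fibrewise minimum has a nondegenerate maximum gives rise to a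
    -- counterexample to the question
    (∀ (H : ℝ → ℝ → ℝ) (x₀ : ℝ), Tonelli H → (∀ x, fibreMin H x ≤ fibreMin H x₀) →
      deriv (deriv (fibreMin H)) x₀ ≠ 0 →
      ∃ (c : ℝ) (u : ℝ → ℝ), Tonelli (shift H c) ∧
        (∀ a, (∃ v, IsViscSol (shift H c) a v) ↔ a = fibreMin H x₀) ∧
        IsViscSol (shift H c) (fibreMin H x₀) u ∧
        (∀ w, IsViscSol (shift H c) (fibreMin H x₀) w → ∃ C : ℝ, ∀ x, w x = u x + C) ∧
        aubry (shift H c) (fibreMin H x₀) = Set.univ ∧
        ¬ LimitRelation (shift H c) u) ∧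
    -- an example: the pendulum `p² / 2 + cos (2 π x)`
    (Tonelli (fun x p => p ^ 2 / 2 + Real.cos (2 * Real.pi * x)) ∧
      (∀ x, fibreMin (fun x p => p ^ 2 / 2 + Real.cos (2 * Real.pi * x)) x ≤
        fibreMin (fun x p => p ^ 2 / 2 + Real.cos (2 * Real.pi * x)) 0) ∧
      deriv (deriv (fibreMin fun x p => p ^ 2 / 2 + Real.cos (2 * Real.pi * x))) 0 ≠ 0) := by
  refine ⟨fun H k u hH hu hA => ⟨main hH hu hA, (main hH hu hA).trans (main2 hH hu hA)⟩,
    fun H x₀ hH hmax hne => ?_, ⟨pend_tonelli, pend_max, pend_second⟩⟩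
  obtain ⟨c, u, h1, h2, h3, h4⟩ := full hH hmax
  refine ⟨c, u, hH.shift c, h1, h2, h3, h4, fun hrel => hne ?_⟩
  have h5 := ((main (hH.shift c) h2 h4).trans (main2 (hH.shift c) h2 h4)).1 hrel x₀
    (by rw [fibreMin_shift])
  rwa [fibreMin_shift] at h5

end Pool.Agent.Results.MP_e5a79a_an.DimensionOneCriterion
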